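import Pool.Agent.Lib_helper50.SC.Final

/-!
# Strong colouring numbers of classes with polynomial expansion

For every class of finite graphs with polynomial expansion there is a polynomial `f` in two
variables with `scol_r(G) ≤ f(r, bn_r(G))` for all `r` and all `G` in the class.

In fact `Pool.Agent.SC.scol_le` proves `scol_r(G) ≤ 8192 r² (∇_r(G)+1)² + 3` for every finite graph
`G`, so that `f` may be chosen independent of its second variable.

Proof idea.  A fractional separation lemma (LP duality, random sampling and a bipartite shallow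
minor) gives for each weight `ν : V → [0,1]` a nonnegative vertex weight `w` of total mass at most
`(small/r) · |ν|` such that every vertex reaches, within `w`-distance `1/2`, vertices of total
`ν`-weight at most `K = O(r² (∇_r+1)²)`.  Brouwer's fixed point theorem yields a consistent family
of such weights for all levels at once (`ν_j = min(1, (w_j + w_{j+1} + …)/θ)`), and ordering the
vertices by decreasing level gives the bound.
-/

set_option autoImplicit false

namespace Pool.Agent.Results.MP_9d6589_co.PolyStrong

open Pool.Agent.SC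

/-- For every class with polynomial expansion the strong `r`-colouring numbers are bounded by a
polynomial in `r` and the depth-`r` bramble number. -/
theorem result : ∀ C : GraphClass, PolynomialExpansion C →
    ∃ f : MvPolynomial (Fin 2) ℝ, ∀ (V : Type) [Finite V] (G : SimpleGraph V), C V G →
      ∀ r : ℕ, (scol r G : ℝ) ≤ MvPolynomial.eval ![(r : ℝ), (bn r G : ℝ)] f := by
  rintro C ⟨p, hp⟩
  refine ⟨8192 * MvPolynomial.X 0 ^ 2 *
    (Polynomial.aeval (MvPolynomial.X 0 : MvPolynomial (Fin 2) ℝ) p + 1) ^ 2 + 3, ?_⟩
  intro V _ G hG r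
  have h1 := scol_le G r
  have h2 := hp V G hG r
  have h3 := nabla_nonneg r G
  have hev : MvPolynomial.eval ![(r : ℝ), (bn r G : ℝ)]
      (Polynomial.aeval (MvPolynomial.X 0 : MvPolynomial (Fin 2) ℝ) p) = p.eval (r : ℝ) := by
    rw [Polynomial.aeval_def, Polynomial.hom_eval₂]
    simp only [MvPolynomial.eval_X, Matrix.cons_val_zero]
    have : (MvPolynomial.eval ![(r : ℝ), (bn r G : ℝ)]).comp
        (algebraMap ℝ (MvPolynomial (Fin 2) ℝ)) = RingHom.id ℝ := by
      ext x
      simp [MvPolynomial.algebraMap_eq]
    rw [this, Polynomial.eval₂_id]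
  have hf : MvPolynomial.eval ![(r : ℝ), (bn r G : ℝ)] (8192 * MvPolynomial.X 0 ^ 2 *
      (Polynomial.aeval (MvPolynomial.X 0 : MvPolynomial (Fin 2) ℝ) p + 1) ^ 2 + 3)
      = 8192 * (r:ℝ) ^ 2 * (p.eval (r : ℝ) + 1) ^ 2 + 3 := by
    simp only [map_add, map_mul, map_pow, hev, map_one, MvPolynomial.eval_X,
      Matrix.cons_val_zero, map_ofNat]
  rw [hf]
  refine h1.trans ?_
  have h4 : (nabla r G + 1) ^ 2 ≤ (p.eval (r : ℝ) + 1) ^ 2 := by
    apply pow_le_pow_left₀ (by linarith)
    linarith
  gcongr

end Pool.Agent.Results.MP_9d6589_co.PolyStrong
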